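import Pool.Agent.Lib.MP_067a7d_co.Final
import Pool.Agent.Lib.MP_067a7d_co.Prod

/-!
The sign pattern of the 3-dissection of real powers of the infinite Borwein product
`(q, q^2; q^3)_∞^d`, for all real `d` in `[(9 - √73)/2, 1] ∪ [2, 3]`.

Outline: the coefficients satisfy a recurrence (`Lib/MP_067a7d_co/Basic`), which is tied to the
product in `Series`, `Prod`. For large `n d` the circle method with explicit constants
(`Transf` ... `Big3`) gives the signs; near `d = 3` the coefficient `c_3(3m+2) = 0` comes from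
Jacobi's identity (`Jacobi`). The finitely many remaining `n` are treated by truncated Taylor
expansions in `d` with rigorous error bounds (`FinMath`, `Kron`, `Check`, `Sound`, `Case`), whose
integer certificates are evaluated by the kernel (`Inst1`, `Inst2`, `Inst3`).
-/

open Pool.Agent.Lib.MP_067a7d_co

theorem Pool.Agent.Results.MP_067a7d_co.BorweinSigns.result :
    ∀ d : ℝ, d ∈ Set.Icc ((9 - √73) / 2) 1 ∪ Set.Icc 2 3 →
      ∃ c : ℕ → ℝ,
        (∀ q : ℝ, |q| < 1 → HasSum (fun n : ℕ => c n * q ^ n)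
          ((∏' k : ℕ, (1 - q ^ (3 * k + 1)) * (1 - q ^ (3 * k + 2))) ^ d)) ∧
        ∀ m : ℕ, 0 ≤ c (3 * m) ∧ c (3 * m + 1) ≤ 0 ∧ c (3 * m + 2) ≤ 0 := by
  intro d hd
  refine ⟨Pool.Agent.Lib.MP_067a7d_co.c d, fun q hq => hasSum_real d hq, fun m => ⟨?_, ?_, ?_⟩⟩
  · exact (signs hd (3 * m)).1 (by omega)
  · exact (signs hd (3 * m + 1)).2 (by omega)
  · exact (signs hd (3 * m + 2)).2 (by omega)
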